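import Pool.Agent.Helper14.LE.St

/-!
Project LE (MP_58b586_gt), module PFL: the flow of a planar vector field with parameters.
-/

set_option autoImplicit false

namespace Pool.Agent.Helper64.LE

open Pool.Agent.Helper14.LK Pool.Agent.Helper14.LE
open scoped ContDiff Topology
open MeasureTheory Set Filter

section

variable {E : Type} [NormedAddCommGroup E] [NormedSpace ℝ E] [FiniteDimensional ℝ E]
  {V : E → ℂ → ℂ} {R : ℝ}

private theorem pfl_supp (h : PF V R) :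
    HasCompactSupport (fun q : E × ℂ => Function.uncurry V q - 1) := by
  refine HasCompactSupport.intro (isCompact_closedBall (0 : E × ℂ) R) (fun q hq => ?_)
  rw [mem_closedBall_zero_iff, not_le, Prod.norm_def, lt_max_iff] at hq
  rcases hq with hq | hq
  · show V q.1 q.2 - 1 = 0
    rw [h.farp _ _ hq.le, sub_self]
  · show V q.1 q.2 - 1 = 0
    rw [h.far _ _ hq.le, sub_self]

private theorem pfl_lip (h : PF V R) : ∃ K : NNReal, LipschitzWith K (Function.uncurry V) := by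
  obtain ⟨K, hK⟩ := ContDiff.lipschitzWith_of_hasCompactSupport (pfl_supp h)
    (h.smooth.sub contDiff_const) (by simp)
  refine ⟨K, LipschitzWith.of_dist_le_mul fun x y => ?_⟩
  have h1 := hK.dist_le_mul x y
  rwa [dist_sub_right] at h1

private theorem pfl_lip1 (h : PF V R) : ∃ K : NNReal, ∀ p, LipschitzWith K (V p) := by
  obtain ⟨K, hK⟩ := pfl_lip h
  refine ⟨K, fun p => LipschitzWith.of_dist_le_mul fun x y => ?_⟩
  have h1 := hK.dist_le_mul (p, x) (p, y)
  rwa [dist_prod_same_left] at h1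

private theorem pfl_uniq (h : PF V R) (p : E) {f g : ℝ → ℂ}
    (hf : ∀ s, HasDerivAt f (V p (f s)) s) (hg : ∀ s, HasDerivAt g (V p (g s)) s)
    (h0 : f 0 = g 0) : f = g := by
  obtain ⟨K, hK⟩ := pfl_lip1 h
  exact ODE_solution_unique_univ (v := fun _ => V p) (s := fun _ => univ) (K := K) (t₀ := 0)
    (fun _ => (hK p).lipschitzOnWith) (fun t => ⟨hf t, trivial⟩) (fun t => ⟨hg t, trivial⟩) h0

private theorem pfl_exists (hFLB : StFLB) (h : PF V R) : ∃ Φ : E → ℝ → ℂ → ℂ, PFl V Φ := by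
  obtain ⟨K, hK⟩ := pfl_lip h
  obtain ⟨Ψ, h1, h2, h3⟩ := hFLB (E × ℂ) (fun q => ((0 : E), Function.uncurry V q))
    (contDiff_const.prodMk h.smooth)
    ⟨_, (LipschitzWith.const (0 : E)).prodMk hK⟩
  have hfst : ∀ t x, (Ψ t x).1 = x.1 := by
    intro t x
    have hd : ∀ s, HasDerivAt (fun s => (Ψ s x).1) 0 s := fun s =>
      (ContinuousLinearMap.fst ℝ E ℂ).hasFDerivAt.comp_hasDerivAt s (h3 s x)
    have h4 := is_const_of_deriv_eq_zero (fun s => (hd s).differentiableAt)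
      (fun s => (hd s).deriv) t 0
    rw [h4, h2]
  have hder : ∀ p s z, HasDerivAt (fun r => (Ψ r (p, z)).2) (V p (Ψ s (p, z)).2) s := by
    intro p s z
    have h4 := (ContinuousLinearMap.snd ℝ E ℂ).hasFDerivAt.comp_hasDerivAt s (h3 s (p, z))
    have h5 : (ContinuousLinearMap.snd ℝ E ℂ) ((0 : E), Function.uncurry V (Ψ s (p, z))) =
        V p (Ψ s (p, z)).2 := by
      show V (Ψ s (p, z)).1 (Ψ s (p, z)).2 = V p (Ψ s (p, z)).2
      rw [hfst]
    rw [h5] at h4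
    exact h4
  have hzero : ∀ p z, (Ψ 0 (p, z)).2 = z := by
    intro p z
    rw [h2]
  refine ⟨fun p s z => (Ψ s (p, z)).2, ⟨?_, hzero, hder, ?_⟩⟩
  · have h4 : ContDiff ℝ ∞ (fun q : E × ℝ × ℂ => (q.2.1, (q.1, q.2.2))) := by fun_prop
    exact contDiff_snd.comp (h1.comp h4)
  · intro p s r z
    have h4 := pfl_uniq h p (f := fun s => (Ψ (s + r) (p, z)).2)
      (g := fun s => (Ψ s (p, (Ψ r (p, z)).2)).2)
      (fun s => (hder p (s + r) z).comp_add_const s r) (fun s => hder p s _)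
      (by simp only [zero_add, hzero])
    exact congrFun h4 s

variable {Φ : E → ℝ → ℂ → ℂ}

private theorem pfl_cont (hΦ : PFl V Φ) (p : E) (z : ℂ) : Continuous (fun r => Φ p r z) :=
  continuous_iff_continuousAt.2 fun s => (hΦ.deriv p s z).continuousAt

/-- straight pieces of a trajectory -/
private theorem pfl_line (h : PF V R) (hΦ : PFl V Φ) (p : E) (z : ℂ) {a b : ℝ}
    (hR : ∀ r ∈ Icc a b, R ≤ ‖Φ p r z‖) :
    ∀ t ∈ Icc a b, Φ p t z = Φ p a z + ((t - a : ℝ) : ℂ) := by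
  intro t ht
  have h1 := constant_of_has_deriv_right_zero (f := fun r : ℝ => Φ p r z - (r : ℂ)) (a := a)
    (b := b) ((pfl_cont hΦ p z).sub Complex.continuous_ofReal).continuousOn (fun x hx => by
      have h2 := (hΦ.deriv p x z).sub (Complex.ofRealCLM.hasDerivAt (x := x))
      have h3 : V p (Φ p x z) - Complex.ofRealCLM 1 = 0 := by
        rw [h.far p _ (hR x ⟨hx.1, hx.2.le⟩)]
        simp
      rw [h3] at h2
      exact h2.hasDerivWithinAt) t ht
  push_cast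
  linear_combination h1

private theorem pfl_two (h : PF V R) (hΦ : PFl V Φ) (p : E) (z : ℂ) (s : ℝ)
    (hR : ∀ r ∈ uIcc 0 s, R ≤ ‖Φ p r z‖) : Φ p s z = z + s := by
  rcases le_total 0 s with hs | hs
  · rw [uIcc_of_le hs] at hR
    have h1 := pfl_line h hΦ p z hR s ⟨hs, le_rfl⟩
    rw [hΦ.zero, sub_zero] at h1
    exact h1
  · rw [uIcc_of_ge hs] at hR
    have h1 := pfl_line h hΦ p z hR 0 ⟨hs, le_rfl⟩
    rw [hΦ.zero] at h1
    push_cast at h1
    linear_combination -h1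

private theorem pfl_der (z : ℂ) (t : ℝ) : HasDerivAt (fun r : ℝ => z + (r : ℂ)) 1 t := by
  have h := (Complex.ofRealCLM.hasDerivAt (x := t)).const_add z
  simpa using h

private theorem pfl_norm (z : ℂ) (t : ℝ) (hz : R ≤ |z.re + t|) : R ≤ ‖z + (t : ℂ)‖ := by
  refine hz.trans ?_
  have h := Complex.abs_re_le_norm (z + (t : ℂ))
  rwa [Complex.add_re, Complex.ofReal_re] at h

private theorem pfl_three (h : PF V R) (hΦ : PFl V Φ) (p : E) (z : ℂ) (s : ℝ)
    (hz : z.re ≤ -R) (hs : s ≤ 0) : Φ p s z = z + s := by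
  obtain ⟨K, hK⟩ := pfl_lip1 h
  have hR : ∀ t ≤ (0 : ℝ), R ≤ ‖z + (t : ℂ)‖ := by
    intro t ht
    apply pfl_norm
    rw [abs_of_nonpos (by linarith [h.pos])]
    linarith
  have hc : Continuous (fun r : ℝ => z + (r : ℂ)) := by fun_prop
  exact ODE_solution_unique_of_mem_Icc_left (v := fun _ => V p) (s := fun _ => univ) (K := K)
    (f := fun r => Φ p r z) (g := fun r : ℝ => z + (r : ℂ)) (a := s) (b := 0)
    (fun _ _ => (hK p).lipschitzOnWith) (pfl_cont hΦ p z).continuousOn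
    (fun t _ => (hΦ.deriv p t z).hasDerivWithinAt) (fun _ _ => trivial) hc.continuousOn
    (fun t ht => by
      have h1 := (pfl_der z t).hasDerivWithinAt (s := Iic t)
      rw [← h.far p _ (hR t ht.2)] at h1
      exact h1) (fun _ _ => trivial)
    (by simp only [hΦ.zero, Complex.ofReal_zero, add_zero]) ⟨le_rfl, hs⟩

private theorem pfl_four (h : PF V R) (hΦ : PFl V Φ) (p : E) (z : ℂ) (s : ℝ)
    (hz : R ≤ z.re) (hs : 0 ≤ s) : Φ p s z = z + s := by
  obtain ⟨K, hK⟩ := pfl_lip1 h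
  have hR : ∀ t ≥ (0 : ℝ), R ≤ ‖z + (t : ℂ)‖ := by
    intro t ht
    apply pfl_norm
    rw [abs_of_nonneg (by linarith [h.pos])]
    linarith
  have hc : Continuous (fun r : ℝ => z + (r : ℂ)) := by fun_prop
  exact ODE_solution_unique_of_mem_Icc_right (v := fun _ => V p) (s := fun _ => univ) (K := K)
    (f := fun r => Φ p r z) (g := fun r : ℝ => z + (r : ℂ)) (a := 0) (b := s)
    (fun _ _ => (hK p).lipschitzOnWith) (pfl_cont hΦ p z).continuousOn
    (fun t _ => (hΦ.deriv p t z).hasDerivWithinAt) (fun _ _ => trivial) hc.continuousOn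
    (fun t ht => by
      have h1 := (pfl_der z t).hasDerivWithinAt (s := Ici t)
      rw [← h.far p _ (hR t ht.1)] at h1
      exact h1) (fun _ _ => trivial)
    (by simp only [hΦ.zero, Complex.ofReal_zero, add_zero]) ⟨hs, le_rfl⟩

private theorem pfl_five (h : PF V R) (hΦ : PFl V Φ) (p : E) (z : ℂ) (s : ℝ)
    (hp : R ≤ ‖p‖) : Φ p s z = z + s := by
  have h1 := pfl_uniq h p (f := fun r => Φ p r z) (g := fun r : ℝ => z + (r : ℂ))
    (fun r => hΦ.deriv p r z) (fun r => by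
      rw [h.farp p _ hp]
      exact pfl_der z r) (by simp only [hΦ.zero, Complex.ofReal_zero, add_zero])
  exact congrFun h1 s

private theorem pfl_six (h : PF V R) (hΦ : PFl V Φ) (p : E) (z : ℂ) :
    Set.OrdConnected {s : ℝ | ‖Φ p s z‖ ≤ R} := by
  have hn : Continuous (fun r => ‖Φ p r z‖) := (pfl_cont hΦ p z).norm
  refine ⟨fun x hx y hy s hs => ?_⟩
  by_contra hgt
  have hgt' : R < ‖Φ p s z‖ := not_le.1 hgt
  have hclosed : IsClosed {r : ℝ | ‖Φ p r z‖ ≤ R} := isClosed_le hn continuous_const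
  obtain ⟨α, ⟨hα1, hα2⟩, hα3⟩ := (isCompact_Icc.inter_right hclosed :
    IsCompact (Icc x s ∩ {r : ℝ | ‖Φ p r z‖ ≤ R})).exists_isGreatest ⟨x, ⟨le_rfl, hs.1⟩, hx⟩
  obtain ⟨β, ⟨hβ1, hβ2⟩, hβ3⟩ := (isCompact_Icc.inter_right hclosed :
    IsCompact (Icc s y ∩ {r : ℝ | ‖Φ p r z‖ ≤ R})).exists_isLeast ⟨y, ⟨hs.2, le_rfl⟩, hy⟩
  have hα2' : ‖Φ p α z‖ ≤ R := hα2
  have hβ2' : ‖Φ p β z‖ ≤ R := hβ2
  have hαs : α < s := lt_of_le_of_ne hα1.2 (by rintro rfl; exact hgt hα2)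
  have hsβ : s < β := lt_of_le_of_ne hβ1.1 (by rintro rfl; exact hgt hβ2)
  have hIoo : Ioo α β ⊆ {r : ℝ | R ≤ ‖Φ p r z‖} := by
    intro r hr
    by_contra hlt
    have hlt' : ‖Φ p r z‖ ≤ R := (not_le.1 hlt).le
    rcases le_total r s with hrs | hrs
    · have h1 := hα3 ⟨⟨hα1.1.trans hr.1.le, hrs⟩, hlt'⟩
      exact absurd hr.1 (not_lt.2 h1)
    · have h1 := hβ3 ⟨⟨hrs, hr.2.le.trans hβ1.2⟩, hlt'⟩
      exact absurd hr.2 (not_lt.2 h1)
  have hαβ : α < β := hαs.trans hsβ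
  have hIcc : ∀ r ∈ Icc α β, R ≤ ‖Φ p r z‖ := by
    have h1 : closure (Ioo α β) ⊆ {r : ℝ | R ≤ ‖Φ p r z‖} :=
      closure_minimal hIoo (isClosed_le continuous_const hn)
    rw [closure_Ioo (ne_of_lt hαβ)] at h1
    exact fun r hr => h1 hr
  have e1 := pfl_line h hΦ p z hIcc s ⟨hαs.le, hsβ.le⟩
  have e2 := pfl_line h hΦ p z hIcc β ⟨hαβ.le, le_rfl⟩
  have hL : 0 < β - α := sub_pos.2 hαβ
  have h1 : Φ p s z = (((β - s) / (β - α) : ℝ)) • Φ p α z + (((s - α) / (β - α) : ℝ)) • Φ p β z := by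
    rw [e1, e2, Complex.real_smul, Complex.real_smul]
    have h2 : ((β : ℂ) - α) ≠ 0 := by
      rw [← Complex.ofReal_sub]
      exact Complex.ofReal_ne_zero.2 hL.ne'
    push_cast
    field_simp
    ring
  have h2 : ‖Φ p s z‖ ≤ R := by
    rw [h1]
    refine (norm_add_le _ _).trans ?_
    rw [norm_smul, norm_smul, Real.norm_of_nonneg (div_nonneg (by linarith) hL.le),
      Real.norm_of_nonneg (div_nonneg (by linarith) hL.le)]
    have h3 : (β - s) / (β - α) * ‖Φ p α z‖ ≤ (β - s) / (β - α) * R :=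
      mul_le_mul_of_nonneg_left hα2' (div_nonneg (by linarith) hL.le)
    have h4 : (s - α) / (β - α) * ‖Φ p β z‖ ≤ (s - α) / (β - α) * R :=
      mul_le_mul_of_nonneg_left hβ2' (div_nonneg (by linarith) hL.le)
    have h5 : (β - s) / (β - α) * R + (s - α) / (β - α) * R = R := by
      field_simp
      ring
    linarith
  exact hgt h2

private theorem pfl_seven (h : PF V R) : ∃ M : ℝ, 0 < M ∧ ∀ p z, ‖V p z‖ ≤ M := by
  obtain ⟨C, hC⟩ := (h.smooth.sub contDiff_const :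
    ContDiff ℝ ∞ (fun q : E × ℂ => Function.uncurry V q - 1)).continuous.bounded_above_of_compact_support
    (pfl_supp h)
  refine ⟨|C| + 1, by positivity, fun p z => ?_⟩
  have h1 : ‖V p z - 1‖ ≤ C := hC (p, z)
  have h2 : V p z = (V p z - 1) + 1 := by ring
  rw [h2]
  refine (norm_add_le _ _).trans ?_
  rw [norm_one]
  linarith [le_abs_self C]

private theorem pfl_diff (hΦ : PFl V Φ) (p : E) (s : ℝ) (z : ℂ) :
    HasFDerivAt (Φ p s) ((fderiv ℝ (fun q : E × ℝ × ℂ => Φ q.1 q.2.1 q.2.2) (p, s, z)).comp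
      ((ContinuousLinearMap.inr ℝ E (ℝ × ℂ)).comp (ContinuousLinearMap.inr ℝ ℝ ℂ))) z := by
  have h1 : HasFDerivAt (fun q : E × ℝ × ℂ => Φ q.1 q.2.1 q.2.2)
      (fderiv ℝ (fun q : E × ℝ × ℂ => Φ q.1 q.2.1 q.2.2) (p, s, z)) (p, s, z) :=
    (hΦ.smooth.differentiable (by simp) (p, s, z)).hasFDerivAt
  have h2 : HasFDerivAt (fun z : ℂ => ((p, s, z) : E × ℝ × ℂ))
      ((ContinuousLinearMap.inr ℝ E (ℝ × ℂ)).comp (ContinuousLinearMap.inr ℝ ℝ ℂ)) z := by
    have h3 := ((hasFDerivAt_const p z).prodMk ((hasFDerivAt_const s z).prodMk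
      (hasFDerivAt_id (𝕜 := ℝ) z)))
    exact h3
  exact h1.comp z h2

private theorem pfl_eight (hΦ : PFl V Φ) (p : E) (s : ℝ) (z : ℂ) :
    fderiv ℝ (Φ p s) z (V p z) = V p (Φ p s z) := by
  have h1 : HasDerivAt (fun r => Φ p s (Φ p r z)) (fderiv ℝ (Φ p s) z (V p z)) 0 := by
    have h2 : HasFDerivAt (Φ p s) (fderiv ℝ (Φ p s) z) (Φ p 0 z) := by
      rw [hΦ.zero]
      exact (pfl_diff hΦ p s z).differentiableAt.hasFDerivAt
    have h3 := hΦ.deriv p 0 z
    have h4 := h2.comp_hasDerivAt 0 h3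
    rw [hΦ.zero] at h4
    exact h4
  have h2 : HasDerivAt (fun r => Φ p (s + r) z) (V p (Φ p s z)) 0 := by
    have h3 := hΦ.deriv p (s + 0) z
    have h4 := HasDerivAt.comp_const_add s 0 h3
    rw [add_zero] at h4
    exact h4
  have h3 : (fun r => Φ p (s + r) z) = fun r => Φ p s (Φ p r z) := by
    funext r
    exact hΦ.add p s r z
  rw [h3] at h2
  exact h1.unique h2

private theorem pfl_ar (A : ℂ →L[ℝ] ℂ) (v w : ℂ) :
    ar (A v) (A w) = ar (A 1) (A Complex.I) * ar v w := by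
  have h1 : ∀ v : ℂ, A v = (v.re : ℂ) * A 1 + (v.im : ℂ) * A Complex.I := by
    intro v
    have h2 : v = v.re • (1 : ℂ) + v.im • Complex.I := by
      apply Complex.ext <;> simp
    conv_lhs => rw [h2]
    rw [map_add, map_smul, map_smul, Complex.real_smul, Complex.real_smul]
  rw [h1 v, h1 w]
  unfold ar
  simp only [Complex.add_re, Complex.add_im, Complex.mul_re, Complex.mul_im, Complex.ofReal_re,
    Complex.ofReal_im]
  ring

private theorem pfl_nine (hΦ : PFl V Φ) (p : E) (s : ℝ) (z : ℂ) :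
    ∃ D : ℝ, 0 < D ∧ ∀ v w,
      ar (fderiv ℝ (Φ p s) z v) (fderiv ℝ (Φ p s) z w) = D * ar v w := by
  obtain ⟨D, hD⟩ : ∃ D : ℝ → ℝ, D = fun s => ar (fderiv ℝ (Φ p s) z 1)
    (fderiv ℝ (Φ p s) z Complex.I) := ⟨_, rfl⟩
  have hDs : ∀ s, D s = ar (fderiv ℝ (Φ p s) z 1) (fderiv ℝ (Φ p s) z Complex.I) := by
    intro s
    rw [hD]
  have hdv : ∀ v : ℂ, Continuous (fun s => fderiv ℝ (Φ p s) z v) := by
    intro v
    have h1 : Continuous (fun s : ℝ =>
        fderiv ℝ (fun q : E × ℝ × ℂ => Φ q.1 q.2.1 q.2.2) (p, s, z)) :=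
      (hΦ.smooth.continuous_fderiv (by simp)).comp (by fun_prop)
    have h2 : (fun s => fderiv ℝ (Φ p s) z v) = fun s : ℝ =>
        fderiv ℝ (fun q : E × ℝ × ℂ => Φ q.1 q.2.1 q.2.2) (p, s, z) (0, 0, v) := by
      funext s
      rw [(pfl_diff hΦ p s z).fderiv]
      rfl
    rw [h2]
    exact h1.clm_apply continuous_const
  have hcont : Continuous D := by
    rw [hD]
    unfold ar
    have h1 := hdv 1
    have h2 := hdv Complex.I
    exact ((Complex.continuous_re.comp h1).mul (Complex.continuous_im.comp h2)).sub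
      ((Complex.continuous_im.comp h1).mul (Complex.continuous_re.comp h2))
  have h10 : ar 1 Complex.I = 1 := by
    simp [ar]
  have hD0 : D 0 = 1 := by
    rw [hDs]
    have h1 : Φ p 0 = id := by
      funext z
      exact hΦ.zero p z
    rw [h1, fderiv_id]
    exact h10
  have hne : ∀ s, D s ≠ 0 := by
    intro s h0
    rw [hDs] at h0
    have h1 : HasFDerivAt (Φ p (-s)) (fderiv ℝ (Φ p (-s)) (Φ p s z)) (Φ p s z) :=
      (pfl_diff hΦ p (-s) _).differentiableAt.hasFDerivAt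
    have h2 : Φ p (-s) (Φ p s z) = z := by
      rw [← hΦ.add, neg_add_cancel, hΦ.zero]
    have h3 : HasFDerivAt (Φ p s) (fderiv ℝ (Φ p s) z) (Φ p (-s) (Φ p s z)) := by
      rw [h2]
      exact (pfl_diff hΦ p s z).differentiableAt.hasFDerivAt
    have h4 := h3.comp (Φ p s z) h1
    have h5 : (Φ p s ∘ Φ p (-s)) = id := by
      funext w
      show Φ p s (Φ p (-s) w) = w
      rw [← hΦ.add, add_neg_cancel, hΦ.zero]
    rw [h5] at h4
    have h6 := h4.unique (hasFDerivAt_id _)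
    have h7 : ∀ v, fderiv ℝ (Φ p s) z (fderiv ℝ (Φ p (-s)) (Φ p s z) v) = v := fun v =>
      congrArg (fun L : ℂ →L[ℝ] ℂ => L v) h6
    have h8 := pfl_ar (fderiv ℝ (Φ p s) z) (fderiv ℝ (Φ p (-s)) (Φ p s z) 1)
      (fderiv ℝ (Φ p (-s)) (Φ p s z) Complex.I)
    rw [h7, h7, h0, zero_mul, h10] at h8
    exact one_ne_zero h8
  refine ⟨D s, ?_, fun v w => ?_⟩
  · by_contra hle
    obtain ⟨r, hr⟩ := mem_range_of_exists_le_of_exists_ge hcont ⟨s, not_lt.1 hle⟩
      ⟨0, by rw [hD0]; exact zero_le_one⟩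
    exact hne r hr
  · rw [hDs]
    exact pfl_ar _ v w

end

/-- PFL -/
theorem hPFL (hFLB : StFLB) : StPFL := by
  intro E _ _ _ V R h
  refine ⟨pfl_exists hFLB h, fun Φ hΦ => ⟨?_, ?_, ?_, ?_, ?_, ?_, ?_, ?_, ?_⟩⟩
  · intro p γ hγ s
    have h1 := pfl_uniq h p (f := γ) (g := fun r => Φ p r (γ 0)) hγ (fun r => hΦ.deriv p r _)
      (by simp only [hΦ.zero])
    exact congrFun h1 s
  · exact fun p z s hR => pfl_two h hΦ p z s hR
  · exact fun p z s h1 h2 => pfl_three h hΦ p z s h1 h2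
  · exact fun p z s h1 h2 => pfl_four h hΦ p z s h1 h2
  · exact fun p z s h1 => pfl_five h hΦ p z s h1
  · exact fun p z => pfl_six h hΦ p z
  · exact pfl_seven h
  · exact fun p s z => pfl_eight hΦ p s z
  · exact fun p s z => pfl_nine hΦ p s z

end Pool.Agent.Helper64.LE
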